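import Mathlib

/-!
# MP_cde6cd_co: `Φ(G) ≠ Φ'(G)` for every finite abelian group with an element of order 8
-/

set_option autoImplicit false

namespace Pool.Agent.Results.MP_cde6cd_co.OrderEight

universe u

section Defs

variable (G : Type u) [AddCommGroup G] [Fintype G]

open Classical in
/-- `g ↦ E_{x₁+x₂+x₃=g} f₁(x₂,x₃) f₂(x₁,x₃) f₃(x₁,x₂)`, the average over the `|G|²` triples
with sum `g`. -/
noncomputable def avg (f₁ f₂ f₃ : G → G → ℂ) (g : G) : ℂ :=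
  (∑ x : G × G × G with x.1 + x.2.1 + x.2.2 = g,
      f₁ x.2.1 x.2.2 * f₂ x.1 x.2.2 * f₃ x.1 x.2.1) / (Fintype.card G : ℂ) ^ 2

/-- The functions generating `Φ(G)`. -/
def Gen : Set (G → ℂ) :=
  {φ | ∃ f₁ f₂ f₃ : G → G → ℂ, (∀ a b, ‖f₁ a b‖ ≤ 1) ∧ (∀ a b, ‖f₂ a b‖ ≤ 1) ∧
    (∀ a b, ‖f₃ a b‖ ≤ 1) ∧ φ = avg G f₁ f₂ f₃}

/-- The functions generating `Φ'(G)`: in addition `f₃(x₁,x₂) = h(x₁+x₂)`, `‖h‖_∞ ≤ 1`. -/
def Gen' : Set (G → ℂ) :=
  {φ | ∃ f₁ f₂ f₃ : G → G → ℂ, (∀ a b, ‖f₁ a b‖ ≤ 1) ∧ (∀ a b, ‖f₂ a b‖ ≤ 1) ∧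
    (∃ h : G → ℂ, (∀ a, ‖h a‖ ≤ 1) ∧ ∀ a b, f₃ a b = h (a + b)) ∧ φ = avg G f₁ f₂ f₃}

/-- The finite convex combinations of elements of a set `S` of functions. -/
def Conv (S : Set (G → ℂ)) : Set (G → ℂ) :=
  {ψ | ∃ (n : ℕ) (w : Fin n → ℝ) (φ : Fin n → G → ℂ), (∀ i, 0 ≤ w i) ∧ ∑ i, w i = 1 ∧
    (∀ i, φ i ∈ S) ∧ ∀ g, ψ g = ∑ i, (w i : ℂ) * φ i g}

/-- `Φ(G)`. -/
def Phi : Set (G → ℂ) := Conv G (Gen G)

/-- `Φ'(G)`. -/
def Phi' : Set (G → ℂ) := Conv G (Gen' G)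

end Defs

/-! ## Extremal values -/

/-- If a convex combination of numbers of norm at most one has norm one, all numbers with a
positive weight are equal to it. -/
theorem extremal {ι : Type*} (s : Finset ι) (w : ι → ℝ) (z : ι → ℂ) (u : ℂ) (hu : ‖u‖ = 1)
    (hw : ∀ i ∈ s, 0 ≤ w i) (h1 : ∑ i ∈ s, w i = 1) (hz : ∀ i ∈ s, ‖z i‖ ≤ 1)
    (he : ∑ i ∈ s, (w i : ℂ) * z i = u) : ∀ i ∈ s, 0 < w i → z i = u := by
  have huu : (starRingEnd ℂ) u * u = 1 := by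
    rw [← Complex.normSq_eq_conj_mul_self, Complex.normSq_eq_norm_sq, hu]; norm_num
  have hle : ∀ i ∈ s, ((starRingEnd ℂ) u * z i).re ≤ 1 := fun i hi =>
    (Complex.re_le_norm _).trans (by
      rw [norm_mul, RCLike.norm_conj, hu, one_mul]; exact hz i hi)
  have hsum : ∑ i ∈ s, w i * (1 - ((starRingEnd ℂ) u * z i).re) = 0 := by
    have h2 : ∑ i ∈ s, w i * ((starRingEnd ℂ) u * z i).re = 1 := by
      have h3 : ((starRingEnd ℂ) u * ∑ i ∈ s, (w i : ℂ) * z i).re = 1 := by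
        rw [he, huu, Complex.one_re]
      rw [← h3, Finset.mul_sum, Complex.re_sum]
      refine Finset.sum_congr rfl fun i _ => ?_
      rw [mul_left_comm, Complex.re_ofReal_mul]
    simp only [mul_sub, mul_one, Finset.sum_sub_distrib, h1, h2, sub_self]
  have h0 := (Finset.sum_eq_zero_iff_of_nonneg (fun i hi =>
    mul_nonneg (hw i hi) (sub_nonneg.2 (hle i hi)))).1 hsum
  intro i hi hpos
  have hre : ((starRingEnd ℂ) u * z i).re = 1 := by
    rcases mul_eq_zero.1 (h0 i hi) with h | h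
    · exact absurd h hpos.ne'
    · linarith
  have hn : ‖(starRingEnd ℂ) u * z i‖ ≤ 1 := by
    rw [norm_mul, RCLike.norm_conj, hu, one_mul]; exact hz i hi
  have him : ((starRingEnd ℂ) u * z i).im = 0 := by
    have h6 : ‖(starRingEnd ℂ) u * z i‖ ^ 2 ≤ 1 := by
      have := norm_nonneg ((starRingEnd ℂ) u * z i)
      nlinarith
    rw [← Complex.normSq_eq_norm_sq, Complex.normSq_apply, hre] at h6
    nlinarith
  have h7 : (starRingEnd ℂ) u * z i = 1 := Complex.ext (by simpa using hre) (by simpa using him)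
  calc z i = ((starRingEnd ℂ) u * u) * z i := by rw [huu, one_mul]
    _ = u * ((starRingEnd ℂ) u * z i) := by ring
    _ = u := by rw [h7, mul_one]

theorem norm_term {G : Type u} {f₁ f₂ f₃ : G → G → ℂ} (h₁ : ∀ a b, ‖f₁ a b‖ ≤ 1)
    (h₂ : ∀ a b, ‖f₂ a b‖ ≤ 1) (h₃ : ∀ a b, ‖f₃ a b‖ ≤ 1) (a b c : G) :
    ‖f₁ b c * f₂ a c * f₃ a b‖ ≤ 1 := by
  rw [norm_mul, norm_mul]
  exact mul_le_one₀ (mul_le_one₀ (h₁ _ _) (norm_nonneg _) (h₂ _ _)) (norm_nonneg _) (h₃ _ _)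

section Avg

variable {G : Type u} [AddCommGroup G] [Fintype G]

open Classical in
/-- There are `|G|²` triples with sum `g`. -/
theorem card_triples (g : G) :
    (Finset.univ.filter fun x : G × G × G => x.1 + x.2.1 + x.2.2 = g).card =
      Fintype.card G ^ 2 := by
  have h : (Finset.univ.filter fun x : G × G × G => x.1 + x.2.1 + x.2.2 = g) =
      (Finset.univ : Finset (G × G)).image fun p => (p.1, p.2, g - p.1 - p.2) := by
    ext ⟨a, b, c⟩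
    simp only [Finset.mem_filter, Finset.mem_univ, true_and, Finset.mem_image, Prod.mk.injEq,
      Prod.exists]
    constructor
    · intro h
      exact ⟨a, b, rfl, rfl, by rw [← h]; abel⟩
    · rintro ⟨a', b', rfl, rfl, rfl⟩
      abel
  rw [h, Finset.card_image_of_injective _ (fun p q hpq => by
    simp only [Prod.mk.injEq] at hpq
    exact Prod.ext hpq.1 hpq.2.1), Finset.card_univ, Fintype.card_prod, sq]

open Classical in
theorem avg_eq (f₁ f₂ f₃ : G → G → ℂ) (g : G) : avg G f₁ f₂ f₃ g =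
    ∑ x : G × G × G with x.1 + x.2.1 + x.2.2 = g,
      ((((Fintype.card G : ℝ) ^ 2)⁻¹ : ℝ) : ℂ) *
        (f₁ x.2.1 x.2.2 * f₂ x.1 x.2.2 * f₃ x.1 x.2.1) := by
  rw [avg, ← Finset.mul_sum, div_eq_inv_mul]
  push_cast
  rfl

theorem card_pos' : 0 < ((Fintype.card G : ℝ) ^ 2)⁻¹ := by
  have : 0 < Fintype.card G := Fintype.card_pos
  positivity

open Classical in
theorem weights_sum (g : G) :
    ∑ _x : G × G × G with _x.1 + _x.2.1 + _x.2.2 = g, ((Fintype.card G : ℝ) ^ 2)⁻¹ = 1 := by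
  rw [Finset.sum_const, card_triples, nsmul_eq_mul]
  push_cast
  exact mul_inv_cancel₀ (by
    have : 0 < Fintype.card G := Fintype.card_pos
    positivity)

theorem norm_avg {f₁ f₂ f₃ : G → G → ℂ} (h₁ : ∀ a b, ‖f₁ a b‖ ≤ 1) (h₂ : ∀ a b, ‖f₂ a b‖ ≤ 1)
    (h₃ : ∀ a b, ‖f₃ a b‖ ≤ 1) (g : G) : ‖avg G f₁ f₂ f₃ g‖ ≤ 1 := by
  classical
  rw [avg_eq]
  refine (norm_sum_le _ _).trans ?_
  rw [← weights_sum g]
  refine Finset.sum_le_sum fun x _ => ?_
  rw [norm_mul, Complex.norm_real, Real.norm_of_nonneg card_pos'.le]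
  exact mul_le_of_le_one_right card_pos'.le (norm_term h₁ h₂ h₃ _ _ _)

/-- If the average at `a + b + c` has norm one, all its terms are equal. -/
theorem avg_extremal {f₁ f₂ f₃ : G → G → ℂ} (h₁ : ∀ a b, ‖f₁ a b‖ ≤ 1)
    (h₂ : ∀ a b, ‖f₂ a b‖ ≤ 1) (h₃ : ∀ a b, ‖f₃ a b‖ ≤ 1) {u : ℂ} (hu : ‖u‖ = 1) (a b c : G)
    (h : avg G f₁ f₂ f₃ (a + b + c) = u) : f₁ b c * f₂ a c * f₃ a b = u := by
  classical
  rw [avg_eq] at h
  exact extremal _ (fun _ : G × G × G => ((Fintype.card G : ℝ) ^ 2)⁻¹)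
    (fun x : G × G × G => f₁ x.2.1 x.2.2 * f₂ x.1 x.2.2 * f₃ x.1 x.2.1) u hu
    (fun _ _ => card_pos'.le) (weights_sum _) (fun x _ => norm_term h₁ h₂ h₃ _ _ _) h (a, b, c)
    (by simp) card_pos'

/-- The average of a constant. -/
theorem avg_const {f₁ f₂ f₃ : G → G → ℂ} (g : G) (u : ℂ)
    (h : ∀ a b c, a + b + c = g → f₁ b c * f₂ a c * f₃ a b = u) : avg G f₁ f₂ f₃ g = u := by
  classical
  rw [avg, Finset.sum_congr rfl (g := fun _ => u) (fun x hx => h x.1 x.2.1 x.2.2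
    (Finset.mem_filter.1 hx).2), Finset.sum_const, card_triples, nsmul_eq_mul]
  push_cast
  have : (Fintype.card G : ℂ) ≠ 0 := Nat.cast_ne_zero.2 Fintype.card_ne_zero
  field_simp

end Avg

/-! ## The abstract contradiction -/

theorem no_h (F₁ F₂ : ℤ → ℤ → ℂ) (H : ℤ → ℂ)
    (e0 : ∀ a b y : ℤ, (8 : ℤ) ∣ a + b - y → F₁ a y * F₂ b y * H (a + b) = 1)
    (e1 : ∀ a b y : ℤ, (8 : ℤ) ∣ a + b - y - 1 → F₁ a y * F₂ b y * H (a + b) = 1)
    (e4 : ∀ a b y : ℤ, (8 : ℤ) ∣ a + b - y - 4 → F₁ a y * F₂ b y * H (a + b) = Complex.I) :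
    False := by
  -- `F₁(a+1,u) H(u+1) = F₁(a,u) H(u)`
  have hH : ∀ u : ℤ, H u ≠ 0 := fun u h => by
    have := e0 0 u u (by simp)
    rw [zero_add, h, mul_zero] at this
    exact zero_ne_one this
  have hF₂ : ∀ b y : ℤ, F₂ b y ≠ 0 := fun b y h => by
    have := e0 (y - b) b y (by simp)
    rw [h, mul_zero, zero_mul] at this
    exact zero_ne_one this
  have hF₁ : ∀ b y : ℤ, F₁ b y ≠ 0 := fun b y h => by
    have := e0 b (y - b) y (by simp)
    rw [h, zero_mul, zero_mul] at this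
    exact zero_ne_one this
  have st : ∀ u y a : ℤ, (8 : ℤ) ∣ u - y →
      F₁ (a + 1) y * H (u + 1) = F₁ a y * H u := by
    intro u y a huy
    have h0 := e0 a (u - a) y (by rw [add_sub_cancel]; exact huy)
    have h1 := e1 (a + 1) (u - a) y (by
      have : a + 1 + (u - a) - y - 1 = u - y := by ring
      rw [this]; exact huy)
    rw [add_sub_cancel] at h0
    rw [show a + 1 + (u - a) = u + 1 by ring] at h1
    refine mul_left_cancel₀ (hF₂ (u - a) y) ?_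
    linear_combination h1 - h0
  have st4 : ∀ u : ℤ, H (u + 4) * H u ^ 3 = Complex.I * H (u + 1) ^ 4 := by
    intro u
    have s0 := st u u 0 (by simp)
    have s1 := st u u 1 (by simp)
    have s2 := st u u 2 (by simp)
    have s3 := st u u 3 (by simp)
    norm_num at s0 s1 s2 s3
    have h0 := e0 0 u u (by simp)
    have h4 := e4 4 u u (by simp)
    rw [zero_add] at h0
    rw [add_comm 4 u] at h4
    -- `F₁ 4 * H(u+1)^4 = F₁ 0 * H u ^ 4`
    have t : F₁ 4 u * H (u + 1) ^ 4 = F₁ 0 u * H u ^ 4 := by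
      calc F₁ 4 u * H (u + 1) ^ 4 = (F₁ 4 u * H (u + 1)) * H (u + 1) ^ 3 := by ring
        _ = (F₁ 3 u * H (u + 1)) * H (u + 1) ^ 2 * H u := by rw [s3]; ring
        _ = (F₁ 2 u * H (u + 1)) * H (u + 1) * H u ^ 2 := by rw [s2]; ring
        _ = (F₁ 1 u * H (u + 1)) * H u ^ 3 := by rw [s1]; ring
        _ = F₁ 0 u * H u ^ 4 := by rw [s0]; ring
    have p1 : F₁ 4 u * H (u + 4) = Complex.I * (F₁ 0 u * H u) := by
      refine mul_left_cancel₀ (hF₂ u u) ?_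
      linear_combination h4 - Complex.I * h0
    refine mul_left_cancel₀ (mul_ne_zero (hF₁ 0 u) (hH u)) ?_
    calc F₁ 0 u * H u * (H (u + 4) * H u ^ 3) = (F₁ 0 u * H u ^ 4) * H (u + 4) := by ring
      _ = (F₁ 4 u * H (u + 4)) * H (u + 1) ^ 4 := by rw [← t]; ring
      _ = F₁ 0 u * H u * (Complex.I * H (u + 1) ^ 4) := by rw [p1]; ring
  have st8 : ∀ u : ℤ, H (u + 8) * H u ^ 7 = H (u + 1) ^ 8 := by
    intro u
    have s0 := st u u 0 (by simp)
    have s1 := st u u 1 (by simp)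
    have s2 := st u u 2 (by simp)
    have s3 := st u u 3 (by simp)
    have s4 := st u u 4 (by simp)
    have s5 := st u u 5 (by simp)
    have s6 := st u u 6 (by simp)
    have s7 := st u u 7 (by simp)
    norm_num at s0 s1 s2 s3 s4 s5 s6 s7
    have h0 := e0 0 u u (by simp)
    have h8 := e0 8 u u (by
      have : 8 + u - u = 8 := by ring
      rw [this])
    rw [zero_add] at h0
    rw [add_comm 8 u] at h8
    have t : F₁ 8 u * H (u + 1) ^ 8 = F₁ 0 u * H u ^ 8 := by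
      calc F₁ 8 u * H (u + 1) ^ 8 = (F₁ 8 u * H (u + 1)) * H (u + 1) ^ 7 := by ring
        _ = (F₁ 7 u * H (u + 1)) * H (u + 1) ^ 6 * H u := by rw [s7]; ring
        _ = (F₁ 6 u * H (u + 1)) * H (u + 1) ^ 5 * H u ^ 2 := by rw [s6]; ring
        _ = (F₁ 5 u * H (u + 1)) * H (u + 1) ^ 4 * H u ^ 3 := by rw [s5]; ring
        _ = (F₁ 4 u * H (u + 1)) * H (u + 1) ^ 3 * H u ^ 4 := by rw [s4]; ring
        _ = (F₁ 3 u * H (u + 1)) * H (u + 1) ^ 2 * H u ^ 5 := by rw [s3]; ring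
        _ = (F₁ 2 u * H (u + 1)) * H (u + 1) * H u ^ 6 := by rw [s2]; ring
        _ = (F₁ 1 u * H (u + 1)) * H u ^ 7 := by rw [s1]; ring
        _ = F₁ 0 u * H u ^ 8 := by rw [s0]; ring
    have p1 : F₁ 8 u * H (u + 8) = F₁ 0 u * H u := by
      refine mul_left_cancel₀ (hF₂ u u) ?_
      linear_combination h8 - h0
    refine mul_left_cancel₀ (mul_ne_zero (hF₁ 0 u) (hH u)) ?_
    calc F₁ 0 u * H u * (H (u + 8) * H u ^ 7) = (F₁ 0 u * H u ^ 8) * H (u + 8) := by ring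
      _ = (F₁ 8 u * H (u + 8)) * H (u + 1) ^ 8 := by rw [← t]; ring
      _ = F₁ 0 u * H u * H (u + 1) ^ 8 := by rw [p1]
  have r9 : H 9 * H 0 = H 1 * H 8 := by
    have s0 := st 0 0 0 (by simp)
    have s8 := st 8 0 0 (by simp)
    norm_num at s0 s8
    refine mul_left_cancel₀ (mul_ne_zero (hF₁ 1 0) (hF₁ 0 0)) ?_
    calc F₁ 1 0 * F₁ 0 0 * (H 9 * H 0) = (F₁ 1 0 * H 9) * (F₁ 0 0 * H 0) := by ring
      _ = (F₁ 0 0 * H 8) * (F₁ 1 0 * H 1) := by rw [s8, s0]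
      _ = F₁ 1 0 * F₁ 0 0 * (H 1 * H 8) := by ring
  have k0 := st8 0
  have k1 := st8 1
  have m0 := st4 0
  have m1 := st4 1
  have m4 := st4 4
  norm_num at k0 k1 m0 m1 m4
  have n0 := hH 0
  have n1 := hH 1
  -- `H 8 = H1^8/H0^7`, `H 4 = I H1^4/H0^3`, `H 9 = H1 H8/H0`
  have a8 : H 8 = H 1 ^ 8 / H 0 ^ 7 := by field_simp; exact k0
  have a4 : H 4 = Complex.I * H 1 ^ 4 / H 0 ^ 3 := by field_simp; exact m0
  have a9 : H 9 = H 1 * H 8 / H 0 := by field_simp; exact r9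
  have b2 : H 2 ^ 8 = H 1 ^ 16 / H 0 ^ 8 := by
    rw [← k1, a9, a8]; field_simp
  have I4 : Complex.I ^ 4 = 1 := Complex.I_pow_four
  have b5 : H 5 ^ 4 = H 1 ^ 20 / H 0 ^ 16 := by
    have h1 : (H 5 * H 1 ^ 3) ^ 4 = (H 2 ^ 8) ^ 2 := by
      rw [m1, mul_pow, I4]; ring
    rw [b2] at h1
    have h2 : H 5 ^ 4 * H 1 ^ 12 = (H 1 ^ 20 / H 0 ^ 16) * H 1 ^ 12 := by
      rw [show H 5 ^ 4 * H 1 ^ 12 = (H 5 * H 1 ^ 3) ^ 4 by ring, h1]
      field_simp
    exact mul_right_cancel₀ (pow_ne_zero 12 n1) h2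
  rw [b5, a8, a4] at m4
  have I3 : Complex.I ^ 3 = -Complex.I := Complex.I_pow_three
  have h9 : -Complex.I * (H 1 ^ 20 / H 0 ^ 16) = Complex.I * (H 1 ^ 20 / H 0 ^ 16) := by
    rw [← m4, ← I3]; field_simp
  have h10 : H 1 ^ 20 / H 0 ^ 16 ≠ 0 := div_ne_zero (pow_ne_zero _ n1) (pow_ne_zero _ n0)
  have h11 := mul_right_cancel₀ h10 h9
  have h12 : Complex.I = 0 := by linear_combination (-1 / 2 : ℂ) * h11
  exact Complex.I_ne_zero h12

/-! ## The function in `Φ` -/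

/-- Exponents of `f₁` on `ZMod 8 × ZMod 8` (powers of `I`). -/
def T1 (a b : ZMod 8) : ℕ :=
  (([[1, 0, 0, 2, 0, 1, 3, 1], [0, 0, 2, 2, 1, 1, 1, 1], [0, 0, 2, 1, 1, 1, 3, 0],
     [0, 0, 1, 1, 1, 1, 0, 0], [0, 1, 3, 3, 1, 0, 0, 0], [1, 1, 3, 3, 0, 0, 0, 0],
     [1, 1, 1, 0, 0, 0, 0, 1], [1, 1, 0, 0, 0, 0, 1, 1]] : List (List ℕ)).getD a.val []).getD b.val 0

/-- Exponents of `f₂`. -/
def T2 (a b : ZMod 8) : ℕ :=
  (([[2, 3, 0, 1, 0, 1, 2, 1], [3, 3, 3, 3, 1, 1, 3, 3], [3, 3, 1, 1, 1, 1, 1, 3],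
     [3, 3, 1, 1, 1, 1, 3, 3], [1, 0, 3, 0, 1, 0, 3, 2], [0, 0, 2, 2, 0, 0, 0, 0],
     [0, 0, 2, 0, 0, 0, 0, 0], [0, 0, 0, 0, 0, 0, 0, 0]] : List (List ℕ)).getD a.val []).getD b.val 0

/-- Exponents of `f₃`. -/
def T3 (a b : ZMod 8) : ℕ :=
  (([[1, 2, 3, 2, 3, 0, 3, 0], [0, 0, 2, 2, 2, 2, 0, 0], [0, 2, 2, 2, 0, 0, 0, 0],
     [2, 2, 2, 2, 0, 0, 0, 0], [3, 2, 3, 0, 3, 2, 1, 0], [0, 0, 0, 0, 0, 0, 0, 0],
     [2, 0, 0, 0, 0, 0, 0, 0], [0, 0, 0, 0, 0, 0, 0, 0]] : List (List ℕ)).getD a.val []).getD b.val 0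

theorem T_zero : ∀ x₁ x₂ : ZMod 8,
    (T1 x₂ (0 - x₁ - x₂) + T2 x₁ (0 - x₁ - x₂) + T3 x₁ x₂) % 4 = 0 := by decide

theorem T_one : ∀ x₁ x₂ : ZMod 8,
    (T1 x₂ (1 - x₁ - x₂) + T2 x₁ (1 - x₁ - x₂) + T3 x₁ x₂) % 4 = 0 := by decide

theorem T_four : ∀ x₁ x₂ : ZMod 8,
    (T1 x₂ (4 - x₁ - x₂) + T2 x₁ (4 - x₁ - x₂) + T3 x₁ x₂) % 4 = 1 := by decide

theorem I_pow_mod (n : ℕ) : Complex.I ^ n = Complex.I ^ (n % 4) := by
  conv_lhs => rw [← Nat.div_add_mod n 4]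
  rw [pow_add, pow_mul, Complex.I_pow_four, one_pow, one_mul]

/-- A finite abelian group with an element of order 8 maps onto `ZMod 8`. -/
theorem exists_hom {G : Type u} [AddCommGroup G] [Finite G] {x : G} (hx : addOrderOf x = 8) :
    ∃ (π : G →+ ZMod 8) (g : G), π g = 1 := by
  obtain ⟨ι, _, p, hp, e, ⟨f⟩⟩ := AddCommGroup.equiv_directSum_zmod_of_finite G
  classical
  by_contra hcon
  have h1 : ∀ i, ¬ 8 ∣ p i ^ e i := by
    intro i hi
    apply hcon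
    refine ⟨((ZMod.castHom hi (ZMod 8)).toAddMonoidHom.comp
      (DirectSum.component ℤ ι (fun i => ZMod (p i ^ e i)) i).toAddMonoidHom).comp
        f.toAddMonoidHom, f.symm (DirectSum.of (fun i => ZMod (p i ^ e i)) i 1), ?_⟩
    have h : (DirectSum.component ℤ ι (fun i => ZMod (p i ^ e i)) i)
        (DirectSum.of (fun i => ZMod (p i ^ e i)) i 1) = 1 := by
      rw [← DirectSum.apply_eq_component]
      exact DirectSum.of_eq_same (β := fun i => ZMod (p i ^ e i)) i 1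
    simp [h, ZMod.cast_one hi]
  -- so `4 x = 0` 
  have h2 : (8 : ℕ) • x = 0 := by rw [← hx]; exact addOrderOf_nsmul_eq_zero x
  have h3 : (4 : ℕ) • x ≠ 0 := fun h => by
    have := addOrderOf_dvd_of_nsmul_eq_zero h
    rw [hx] at this
    revert this; decide
  apply h3
  apply f.injective
  rw [map_nsmul, map_zero]
  refine DFinsupp.ext fun i => ?_
  have h4 : (8 : ℕ) • (f x i) = 0 := by
    have h := congrArg f h2
    rw [map_nsmul, map_zero] at h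
    exact congrArg (fun y : DirectSum ι fun i => ZMod (p i ^ e i) => y i) h
  change ((4 : ℕ) • f x) i = 0
  have h5 : ((4 : ℕ) • f x) i = (4 : ℕ) • (f x i) := rfl
  rw [h5]
  have h6 : addOrderOf (f x i) ∣ 8 := addOrderOf_dvd_of_nsmul_eq_zero h4
  have h7 : addOrderOf (f x i) ∣ p i ^ e i := by
    refine addOrderOf_dvd_of_nsmul_eq_zero ?_
    rw [nsmul_eq_mul, ZMod.natCast_self, zero_mul]
  have h8 : addOrderOf (f x i) ∣ 4 := by
    have h9 : addOrderOf (f x i) ≤ 8 := Nat.le_of_dvd (by norm_num) h6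
    have h10 : addOrderOf (f x i) ≠ 8 := fun h => h1 i (h ▸ h7)
    interval_cases addOrderOf (f x i) <;> revert h6 h10 <;> decide
  exact addOrderOf_dvd_iff_nsmul_eq_zero.1 h8

/-- The function of `Φ(G)`: `1` at `π g = 0, 1`, and `I` at `π g = 4`. -/
theorem exists_gen {G : Type u} [AddCommGroup G] [Fintype G] (π : G →+ ZMod 8) :
    ∃ φ ∈ Gen G, (∀ g, π g = 0 → φ g = 1) ∧ (∀ g, π g = 1 → φ g = 1) ∧
      ∀ g, π g = 4 → φ g = Complex.I := by
  have key : ∀ (c : ZMod 8) (k : ℕ) (_ : ∀ x₁ x₂ : ZMod 8,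
      (T1 x₂ (c - x₁ - x₂) + T2 x₁ (c - x₁ - x₂) + T3 x₁ x₂) % 4 = k) (g : G), π g = c →
      avg G (fun a b => Complex.I ^ T1 (π a) (π b)) (fun a b => Complex.I ^ T2 (π a) (π b))
        (fun a b => Complex.I ^ T3 (π a) (π b)) g = Complex.I ^ k := by
    intro c k hT g hg
    refine avg_const g _ fun x y z hxyz => ?_
    have hz : π z = c - π x - π y := by
      rw [← hg, ← hxyz, map_add, map_add]; abel
    rw [hz, ← pow_add, ← pow_add, I_pow_mod, hT]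
  refine ⟨_, ⟨fun a b => Complex.I ^ T1 (π a) (π b), fun a b => Complex.I ^ T2 (π a) (π b),
    fun a b => Complex.I ^ T3 (π a) (π b), fun a b => by simp, fun a b => by simp,
    fun a b => by simp, rfl⟩, fun g hg => ?_, fun g hg => ?_, fun g hg => ?_⟩
  · simpa using key 0 0 T_zero g hg
  · simpa using key 1 0 T_one g hg
  · simpa using key 4 1 T_four g hg

theorem Gen_subset {G : Type u} [AddCommGroup G] [Fintype G] : Gen G ⊆ Phi G := by
  intro φ hφ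
  exact ⟨1, fun _ => 1, fun _ => φ, fun _ => zero_le_one, by simp, fun _ => hφ, fun g => by simp⟩

/-- For every finite abelian group `G` with an element of order `8`, one of the functions
`g ↦ E_{x₁+x₂+x₃=g} f₁(x₂,x₃) f₂(x₁,x₃) f₃(x₁,x₂)` generating `Φ(G)` is not in `Φ'(G)`; so
`Φ(G) ≠ Φ'(G)`. -/
theorem result (G : Type u) [AddCommGroup G] [Fintype G] (hG : ∃ x : G, addOrderOf x = 8) :
    (∃ φ ∈ Gen G, φ ∉ Phi' G) ∧ Phi G ≠ Phi' G := by
  obtain ⟨x, hx⟩ := hG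
  obtain ⟨π, g, hg⟩ := exists_hom hx
  obtain ⟨φ, hφ, v0, v1, v4⟩ := exists_gen π
  have hnot : φ ∉ Phi' G := by
    rintro ⟨n, w, ψ, hw, hw1, hψ, hsum⟩
    obtain ⟨i, hi⟩ : ∃ i, 0 < w i := by
      by_contra hcon
      have : ∑ i, w i ≤ 0 := Finset.sum_nonpos fun i _ => not_lt.1 fun h => hcon ⟨i, h⟩
      rw [hw1] at this
      exact absurd this (by norm_num)
    obtain ⟨f₁, f₂, f₃, h₁, h₂, ⟨h, hh, hf₃⟩, hi'⟩ := hψ i
    have h₃ : ∀ a b, ‖f₃ a b‖ ≤ 1 := fun a b => by rw [hf₃]; exact hh _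
    have hext : ∀ (u : ℂ), ‖u‖ = 1 → ∀ a b c : G, φ (a + b + c) = u →
        f₁ b c * f₂ a c * h (a + b) = u := by
      intro u hu a b c habc
      rw [← hf₃]
      refine avg_extremal h₁ h₂ h₃ hu a b c ?_
      rw [← hi']
      refine extremal Finset.univ w (fun j => ψ j (a + b + c)) u hu (fun j _ => hw j) hw1 ?_ ?_ i
        (Finset.mem_univ i) hi
      · intro j _
        obtain ⟨q₁, q₂, q₃, r₁, r₂, ⟨q, hq, hq₃⟩, hj⟩ := hψ j
        rw [hj]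
        exact norm_avg r₁ r₂ (fun a b => by rw [hq₃]; exact hq _) _
      · rw [← habc, hsum]
    have hπ : ∀ (a b y : ℤ), π (b • g + a • g + -(y • g)) = ((a + b - y : ℤ) : ZMod 8) := by
      intro a b y
      rw [map_add, map_add, map_neg, map_zsmul, map_zsmul, map_zsmul, hg]
      simp only [zsmul_eq_mul, mul_one]
      push_cast
      ring
    refine no_h (fun a y => f₁ (a • g) (-(y • g))) (fun b y => f₂ (b • g) (-(y • g)))
      (fun u => h (u • g)) ?_ ?_ ?_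
    · intro a b y hd
      have := hext 1 (by simp) (b • g) (a • g) (-(y • g)) (v0 _ (by
        rw [hπ]
        exact (ZMod.intCast_zmod_eq_zero_iff_dvd _ _).2 (by exact_mod_cast hd)))
      rwa [← add_zsmul, add_comm b a] at this
    · intro a b y hd
      have := hext 1 (by simp) (b • g) (a • g) (-(y • g)) (v1 _ (by
        rw [hπ]
        have e := (ZMod.intCast_zmod_eq_zero_iff_dvd (a + b - y - 1) 8).2 (by exact_mod_cast hd)
        rw [Int.cast_sub, sub_eq_zero] at e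
        rw [e]; simp))
      rwa [← add_zsmul, add_comm b a] at this
    · intro a b y hd
      have := hext Complex.I (by simp) (b • g) (a • g) (-(y • g)) (v4 _ (by
        rw [hπ]
        have e := (ZMod.intCast_zmod_eq_zero_iff_dvd (a + b - y - 4) 8).2 (by exact_mod_cast hd)
        rw [Int.cast_sub, sub_eq_zero] at e
        rw [e]; simp))
      rwa [← add_zsmul, add_comm b a] at this
  exact ⟨⟨φ, hφ, hnot⟩, fun h => hnot (h ▸ Gen_subset hφ)⟩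

end Pool.Agent.Results.MP_cde6cd_co.OrderEight
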